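import Pool.Agent.W644.HK.CharP

/-!
# The Dennis trace `K_n(k[G]) → HH_n(k[G])`, all `n ≥ 1`, in characteristic `p`

Let `k` be a commutative ring of prime characteristic `p` and `G` a group with unique `p`-th roots.
Let `z` be any cycle of degree `n + 1 ≥ 1` in the bar complex (coefficients `ℤ`) of the group of
invertible matrices over `k[G]`; every class of `K_{n+1}(k[G])` gives such a `z` by the Hurewicz
map `K_{n+1}(k[G]) → H_{n+1}(GL(k[G]); ℤ)`.  We determine where the Dennis trace of `z`, a class in
`HH_{n+1}(k[G]) = ⨁_{[g]} H_{n+1}(C_G(g); k)`, lies: its values on Hochschild cocycles satisfy a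
Frobenius relation between the components of `g` and of `g ^ p`; for reduced `k` it vanishes at
every component of an element `g` which is not conjugate to some `g ^ (p ^ j)`, `j ≥ 1`; at the
component of `1` it is fixed by the Frobenius.
-/

set_option autoImplicit false

namespace Pool.Agent.Results.MP_c052b4_al.HigherDennisTraceCharP

open Pool.Agent.W644.HK

universe u v w x

/-- Let `p` be a prime, `k` a commutative ring of characteristic `p`, `G` a group in which
`a ^ p = b ^ p` implies `a = b`, and `z` a cycle of degree `n + 1` in the bar complex of the group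
of invertible matrices over `k[G]` (of any finite size).

(1) If `f` is a Hochschild `(n+1)`-cocycle on `G` with values in `k` fixed by the Frobenius, and
`f'` is obtained from `f` by `f'(g_0, …, g_{n+1}) = f ((g_1 ⋯ g_{n+1})⁻¹ h, g_1, …, g_{n+1})` if
`g_1 ⋯ g_{n+1} g_0 = h ^ p` and `f'(g_0, …, g_{n+1}) = 0` if `g_1 ⋯ g_{n+1} g_0` is not a `p`-th
power, then `⟨f', D z⟩ = ⟨f, D z⟩ ^ p`.

(2) If `k` is reduced, then `⟨f, D z⟩ = 0` for every Hochschild `(n+1)`-cocycle `f` with values in
a `k`-module which vanishes on the tuples whose product is conjugate to its `p ^ j`-th power for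
some `j ≥ 1` (in particular `f` vanishes on the tuples with product `1`).

(3) If `f` is a Hochschild `(n+1)`-cocycle with values in `k` fixed by the Frobenius which vanishes
on the tuples with product `≠ 1`, then `⟨f, D z⟩` is fixed by the Frobenius. -/
theorem result (p : ℕ) [Fact p.Prime] (k : Type u) [CommRing k] [CharP k p]
    (G : Type v) [Group G] (hroot : ∀ a b : G, a ^ p = b ^ p → a = b)
    (r : Type w) [Fintype r] [DecidableEq r] (n : ℕ)
    (z : (Fin (n + 1) → (Matrix r r (MonoidAlgebra k G))ˣ) →₀ ℤ) (hz : barBoundary z = 0) :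
    (∀ f f' : (Fin (n + 2) → G) → k, IsHochschildCocycle f → (∀ g, f g ^ p = f g) →
      (∀ (g : Fin (n + 2) → G) (h : G),
        h ^ p = (List.ofFn fun i : Fin (n + 1) => g i.succ).prod * g 0 →
          f' g = f (Fin.cons ((List.ofFn fun i : Fin (n + 1) => g i.succ).prod⁻¹ * h)
            fun i => g i.succ)) →
      (∀ g : Fin (n + 2) → G,
        (∀ h : G, h ^ p ≠ (List.ofFn fun i : Fin (n + 1) => g i.succ).prod * g 0) → f' g = 0) →
      dennis f' z = dennis f z ^ p) ∧
    (IsReduced k → ∀ (V : Type x) [AddCommGroup V] [Module k V] (f : (Fin (n + 2) → G) → V),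
      IsHochschildCocycle f →
      (∀ (g : Fin (n + 2) → G) (x : G) (j : ℕ), 1 ≤ j →
        x * (List.ofFn g).prod * x⁻¹ = (List.ofFn g).prod ^ p ^ j → f g = 0) →
      dennis f z = 0) ∧
    (∀ f : (Fin (n + 2) → G) → k, IsHochschildCocycle f → (∀ g, f g ^ p = f g) →
      (∀ g : Fin (n + 2) → G, (List.ofFn g).prod ≠ 1 → f g = 0) →
      dennis f z ^ p = dennis f z) := by
  refine ⟨fun f f' hf hfr h1 h2 => dennis_frob hroot z hz f f' hf hfr h1 h2, ?_,
    fun f hf hfr h1 => dennis_one hroot z hz f hf hfr h1⟩
  intro hk V _ _ f hf hvan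
  exact dennis_vanish hroot z hz f hf hvan

end Pool.Agent.Results.MP_c052b4_al.HigherDennisTraceCharP
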